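import Pool.Agent.helper56.CT.SpecB
import Pool.Agent.helper33.CT.A1

/-!
# Module A1T of the project cd (MP_45d809_mp): transposition
-/

namespace CT
open Finset Matrix

theorem A1T_col1 {E N : Type} [Fintype E] [Fintype N] [DecidableEq E] [DecidableEq N]
    (inc : E → N → ZMod 2) (g : N → Option N) (x : E → ZMod 2) (v : E ⊕ N → ZMod 2) (a : E) :
    (v ᵥ* A1_M inc g x) (Sum.inl a) = x a * v (Sum.inl a) +
      ∑ n, inc a n * (if g n = none then v (Sum.inr n) else 0) := by
  show ∑ i, v i * A1_M inc g x i (Sum.inl a) = _
  rw [Fintype.sum_sum_type]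
  congr 1
  · rw [Finset.sum_eq_single a]
    · simp [A1_M, A1_U, A1_B, mul_comm]
    · intro b _ hb
      have : (Sum.inl a : E ⊕ N) ≠ Sum.inl b := fun h => hb (Sum.inl.inj h).symm
      simp [A1_M, A1_U, A1_B, Pi.single_apply, this, hb.symm]
    · simp
  · refine Finset.sum_congr rfl fun n _ => ?_
    have : A1_M inc g x (Sum.inr n) (Sum.inl a) = A1_R inc g n (Sum.inl a) := by
      show (0 : ZMod 2) + A1_R inc g n (Sum.inl a) = _
      rw [zero_add]
    rw [this]
    unfold A1_R
    rcases hg : g n with _ | m
    · simp [mul_comm]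
    · simp

theorem A1T_col2 {E N : Type} [Fintype E] [Fintype N] [DecidableEq E] [DecidableEq N]
    (inc : E → N → ZMod 2) (g : N → Option N) (x : E → ZMod 2) (v : E ⊕ N → ZMod 2) (m : N) :
    (v ᵥ* A1_M inc g x) (Sum.inr m) = (∑ a, inc a m * v (Sum.inl a)) +
      ∑ n, (if g n = some m then v (Sum.inr n) else 0) := by
  show ∑ i, v i * A1_M inc g x i (Sum.inr m) = _
  rw [Fintype.sum_sum_type]
  congr 1
  · refine Finset.sum_congr rfl fun a _ => ?_
    simp [A1_M, A1_U, A1_B, Pi.single_apply, mul_comm]
  · refine Finset.sum_congr rfl fun n _ => ?_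
    have : A1_M inc g x (Sum.inr n) (Sum.inr m) = A1_R inc g n (Sum.inr m) := by
      show (0 : ZMod 2) + A1_R inc g n (Sum.inr m) = _
      rw [zero_add]
    rw [this]
    unfold A1_R
    rcases hg : g n with _ | k
    · simp
    · by_cases hk : k = m
      · subst hk; simp
      · simp [Pi.single_apply, hk, Ne.symm hk]

theorem A1T_half {E N : Type} [Fintype E] [Fintype N] [DecidableEq E] [DecidableEq N]
    (inc : E → N → ZMod 2) (g g' : N → Option N) (x : E → ZMod 2)
    (hg : ∀ n m, g n = some m ↔ g' m = some n) (h : NSn inc g' x) : NSn inc g x := by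
  rw [← A1_ker]
  have hT : ∀ v, v ᵥ* A1_M inc g x = 0 → v = 0 := by
    intro v hv
    have h1 : ∀ a, x a * v (Sum.inl a) +
        ∑ n, inc a n * (if g n = none then v (Sum.inr n) else 0) = 0 := by
      intro a
      rw [← A1T_col1, hv]; rfl
    have h2 : ∀ m, (∑ a, inc a m * v (Sum.inl a)) +
        ∑ n, (if g n = some m then v (Sum.inr n) else 0) = 0 := by
      intro m
      rw [← A1T_col2 inc g x, hv]; rfl
    obtain ⟨e1, e2⟩ := h (fun a => v (Sum.inl a))
      (fun n => if g n = none then v (Sum.inr n) else 0) h1 (by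
        intro m hm
        have h3 := h2 m
        have h4 : ∑ n, (if g n = some m then v (Sum.inr n) else 0) = 0 := by
          refine Finset.sum_eq_zero fun n _ => ?_
          rw [if_neg]
          intro hn
          rw [hg, hm] at hn
          simp at hn
        rw [h4, add_zero] at h3
        exact h3) (by
        intro m n hm
        rw [← hg] at hm
        simp [hm])
    have hE : ∀ a, v (Sum.inl a) = 0 := fun a => congrFun e1 a
    funext i
    rcases i with a | n
    · exact hE a
    · rcases hn : g n with _ | m
      · have := congrFun e2 n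
        simp only [hn, if_true, Pi.zero_apply] at this
        exact this
      · have h3 := h2 m
        simp only [hE, mul_zero, Finset.sum_const_zero, zero_add] at h3
        rw [Finset.sum_eq_single n] at h3
        · rw [if_pos hn] at h3
          exact h3
        · intro k _ hk
          rw [if_neg]
          intro hk'
          rw [hg] at hn hk'
          rw [hn] at hk'
          exact hk (Option.some.inj hk').symm
        · simp
  intro v hv
  by_contra hne
  have hdet : (A1_M inc g x).det = 0 := Matrix.exists_mulVec_eq_zero_iff.1 ⟨v, hne, hv⟩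
  obtain ⟨w, hw, hw'⟩ := Matrix.exists_vecMul_eq_zero_iff.2 hdet
  exact hw (hT w hw')

theorem A1T : A1T_stmt := by
  intro E N _ _ _ _ inc g g' x hg
  exact ⟨A1T_half inc g' g x (fun n m => (hg m n).symm), A1T_half inc g g' x hg⟩

end CT
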