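import Pool.Agent.helper56.CT.SpecB

/-!
# Module A2 of the project cd (MP_45d809_mp): the network identity (reciprocity)
-/

namespace CT
open Finset

theorem A2_z2 (z : ZMod 2) (h : z ≠ 0) : z = 1 := by
  revert z; decide

theorem A2_add_eq (u v : ZMod 2) (h : u + v = 0) : v = u := by
  revert u v; decide

/-- Current at the vertex `n`. -/
def A2_K {E N : Type} [Fintype E] (inc : E → N → ZMod 2) (y : E → ZMod 2) (n : N) : ZMod 2 :=
  ∑ a, inc a n * y a

theorem A2_rec1 {E N : Type} [Fintype E] [Fintype N] (inc : E → N → ZMod 2) (x : E → ZMod 2)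
    (y1 y2 : E → ZMod 2) (p2 : N → ZMod 2)
    (h2 : ∀ a, x a * y2 a + ∑ n, inc a n * p2 n = 0) :
    ∑ n, A2_K inc y1 n * p2 n = ∑ a, y1 a * (x a * y2 a) := by
  unfold A2_K
  have h : ∀ n, (∑ a, inc a n * y1 a) * p2 n = ∑ a, y1 a * (inc a n * p2 n) := by
    intro n
    rw [Finset.sum_mul]
    refine Finset.sum_congr rfl fun a _ => by ring
  simp only [h]
  rw [Finset.sum_comm]
  refine Finset.sum_congr rfl fun a _ => ?_
  rw [← Finset.mul_sum, A2_add_eq _ _ (h2 a)]

theorem A2_rec {E N : Type} [Fintype E] [Fintype N] (inc : E → N → ZMod 2) (x : E → ZMod 2)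
    (y1 y2 : E → ZMod 2) (p1 p2 : N → ZMod 2)
    (h1 : ∀ a, x a * y1 a + ∑ n, inc a n * p1 n = 0)
    (h2 : ∀ a, x a * y2 a + ∑ n, inc a n * p2 n = 0) :
    ∑ n, A2_K inc y1 n * p2 n = ∑ n, A2_K inc y2 n * p1 n := by
  rw [A2_rec1 inc x y1 y2 p2 h2, A2_rec1 inc x y2 y1 p1 h1]
  refine Finset.sum_congr rfl fun a _ => by ring

theorem A2_two {E N : Type} [Fintype N] [DecidableEq N] (inc : E → N → ZMod 2)
    (hT : TwoEnds inc) (a : E) : ∑ n, inc a n = 0 := by

  obtain ⟨m, n, hmn, h⟩ := hT a
  simp only [h]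
  rw [← Finset.sum_filter]
  have : (univ.filter fun k => k = m ∨ k = n) = {m, n} := by
    ext k; simp
  rw [this, Finset.sum_pair hmn]
  decide

theorem A2_sumK {E N : Type} [Fintype E] [Fintype N] [DecidableEq N] (inc : E → N → ZMod 2)
    (hT : TwoEnds inc) (y : E → ZMod 2) : ∑ n, A2_K inc y n = 0 := by
  unfold A2_K
  rw [Finset.sum_comm]
  refine Finset.sum_eq_zero fun a _ => ?_
  rw [← Finset.sum_mul, A2_two inc hT a, zero_mul]

/-- Kirchhoff off one vertex implies Kirchhoff everywhere. -/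
theorem A2_off1 {E N : Type} [Fintype E] [Fintype N] [DecidableEq N] (inc : E → N → ZMod 2)
    (hT : TwoEnds inc) (y : E → ZMod 2) (a : N) (h : ∀ n, n ≠ a → A2_K inc y n = 0) (n : N) :
    A2_K inc y n = 0 := by
  by_cases hn : n = a
  · have := A2_sumK inc hT y
    rw [Finset.sum_eq_single a (fun m _ hm => h m hm) (by simp)] at this
    rw [hn, this]
  · exact h n hn

/-- `NSn` for `g1`, in terms of `A2_K`. -/
theorem A2_not_g1 {E N : Type} [Fintype E] [Fintype N] [DecidableEq N] (inc : E → N → ZMod 2)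
    (x : E → ZMod 2) (a : N) (h : ¬ NSn inc (g1 a) x) :
    ∃ (y : E → ZMod 2) (p : N → ZMod 2), (∀ e, x e * y e + ∑ n, inc e n * p n = 0) ∧
      (∀ n, n ≠ a → A2_K inc y n = 0) ∧ p a = 0 ∧ ¬ (y = 0 ∧ p = 0) := by
  unfold NSn at h
  push Not at h
  obtain ⟨y, p, h1, h2, h3, h4⟩ := h
  refine ⟨y, p, h1, fun n hn => h2 n (by simp [g1, hn]), h3 a a (by simp [g1]), ?_⟩
  rintro ⟨h5, h6⟩
  exact h4 h5 h6

theorem A2_g2_iff {E N : Type} [Fintype E] [Fintype N] [DecidableEq N] (inc : E → N → ZMod 2)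
    (x : E → ZMod 2) (a b : N) (hab : a ≠ b) :
    NSn inc (g2 a b) x ↔ ∀ (y : E → ZMod 2) (p : N → ZMod 2),
      (∀ e, x e * y e + ∑ n, inc e n * p n = 0) →
      (∀ n, n ≠ a → n ≠ b → A2_K inc y n = 0) → p a = 0 → p b = 0 → y = 0 ∧ p = 0 := by
  constructor
  · intro h y p h1 h2 h3 h4
    refine h y p h1 ?_ ?_
    · intro n hn
      refine h2 n ?_ ?_
      · rintro rfl; simp [g2] at hn
      · rintro rfl
        by_cases hna : n = a
        · exact hab hna.symm
        · simp [g2, hna] at hn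
    · intro n m hn
      unfold g2 at hn
      by_cases hna : n = a
      · simp [hna] at hn
        rw [← hn]; exact h3
      · by_cases hnb : n = b
        · rw [if_neg hna, if_pos hnb] at hn
          simp at hn
          rw [← hn]; exact h4
        · simp [hna, hnb] at hn
  · intro h y p h1 h2 h3
    refine h y p h1 (fun n hna hnb => h2 n (by simp [g2, hna, hnb])) (h3 a a (by simp [g2]))
      (h3 b b (by simp [g2, hab.symm]))

theorem A2_g3_iff {E N : Type} [Fintype E] [Fintype N] [DecidableEq N] (inc : E → N → ZMod 2)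
    (x : E → ZMod 2) (a b c : N) (hab : a ≠ b) :
    NSn inc (g3 a b c) x ↔ ∀ (y : E → ZMod 2) (p : N → ZMod 2),
      (∀ e, x e * y e + ∑ n, inc e n * p n = 0) →
      (∀ n, n ≠ a → n ≠ b → A2_K inc y n = 0) → p a = 0 → p c = 0 → y = 0 ∧ p = 0 := by
  constructor
  · intro h y p h1 h2 h3 h4
    refine h y p h1 ?_ ?_
    · intro n hn
      refine h2 n ?_ ?_
      · rintro rfl; simp [g3] at hn
      · rintro rfl
        by_cases hna : n = a
        · exact hab hna.symm
        · simp [g3, hna] at hn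
    · intro n m hn
      unfold g3 at hn
      by_cases hna : n = a
      · simp [hna] at hn
        rw [← hn]; exact h3
      · by_cases hnb : n = b
        · rw [if_neg hna, if_pos hnb] at hn
          simp at hn
          rw [← hn]; exact h4
        · simp [hna, hnb] at hn
  · intro h y p h1 h2 h3
    refine h y p h1 (fun n hna hnb => h2 n (by simp [g3, hna, hnb])) (h3 a a (by simp [g3]))
      (h3 b c (by simp [g3, hab.symm]))

/-- forward direction -/
theorem A2_fwd {E N : Type} [Fintype E] [Fintype N] [DecidableEq N] (inc : E → N → ZMod 2)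
    (x : E → ZMod 2) (a b c : N) (hT : TwoEnds inc) (hab : a ≠ b) (hac : a ≠ c)
    (h1 : ¬ NSn inc (g1 a) x)
    (hb : NSn inc (g2 a b) x) (hc : NSn inc (g2 a c) x) : NSn inc (g3 a b c) x := by
  obtain ⟨y0, p0, o0, k0, z0, n0⟩ := A2_not_g1 inc x a h1
  have k0' := A2_off1 inc hT y0 a k0
  rw [A2_g2_iff inc x a b hab] at hb
  rw [A2_g2_iff inc x a c hac] at hc
  rw [A2_g3_iff inc x a b c hab]
  have hb0 : p0 b = 1 := by
    refine A2_z2 _ fun h => n0 ?_
    exact hb y0 p0 o0 (fun n _ _ => k0' n) z0 h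
  intro y p o k pa pc
  have hrec := A2_rec inc x y y0 p p0 o o0
  have hr : ∑ n, A2_K inc y0 n * p n = 0 := by
    refine Finset.sum_eq_zero fun n _ => by rw [k0' n, zero_mul]
  have hl : ∑ n, A2_K inc y n * p0 n = A2_K inc y b := by
    rw [Finset.sum_eq_single b]
    · rw [hb0, mul_one]
    · intro n _ hn
      by_cases hna : n = a
      · rw [hna, z0, mul_zero]
      · rw [k n hna hn, zero_mul]
    · simp
  have hKb : A2_K inc y b = 0 := by rw [← hl, hrec, hr]
  have hK := A2_off1 inc hT y a (fun n hn => by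
    by_cases hnb : n = b
    · rw [hnb, hKb]
    · exact k n hn hnb)
  exact hc y p o (fun n _ _ => hK n) pa pc

/-- half of the backward direction -/
theorem A2_bwd {E N : Type} [Fintype E] [Fintype N] [DecidableEq N] (inc : E → N → ZMod 2)
    (x : E → ZMod 2) (a b c : N) (hT : TwoEnds inc) (hab : a ≠ b) (hac : a ≠ c)
    (h1 : ¬ NSn inc (g1 a) x)
    (hb : NSn inc (g3 a b c) x) (hc : NSn inc (g3 a c b) x) : NSn inc (g2 a b) x := by
  obtain ⟨y0, p0, o0, k0, z0, n0⟩ := A2_not_g1 inc x a h1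
  have k0' := A2_off1 inc hT y0 a k0
  rw [A2_g2_iff inc x a b hab]
  rw [A2_g3_iff inc x a b c hab] at hb
  rw [A2_g3_iff inc x a c b hac] at hc
  have hc0 : p0 c = 1 := by
    refine A2_z2 _ fun h => n0 ?_
    exact hb y0 p0 o0 (fun n _ _ => k0' n) z0 h
  have hb0 : p0 b = 1 := by
    refine A2_z2 _ fun h => n0 ?_
    exact hc y0 p0 o0 (fun n _ _ => k0' n) z0 h
  intro y p o k pa pb
  by_cases hpc : p c = 0
  · exact hb y p o k pa hpc
  · exfalso
    have hpc1 := A2_z2 _ hpc
    have := hb (y + y0) (p + p0) ?_ ?_ ?_ ?_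
    · have h2 := congrFun this.2 b
      simp only [Pi.add_apply, Pi.zero_apply, pb, hb0, zero_add] at h2
      exact absurd h2 (by decide)
    · intro e
      have e1 := o e
      have e2 := o0 e
      simp only [Pi.add_apply, mul_add, Finset.sum_add_distrib]
      linear_combination e1 + e2
    · intro n hna hnb
      have e1 := k n hna hnb
      have e2 := k0' n
      unfold A2_K at *
      simp only [Pi.add_apply, mul_add, Finset.sum_add_distrib]
      rw [e1, e2, add_zero]
    · simp [pa, z0]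
    · simp only [Pi.add_apply, hpc1, hc0]
      decide

theorem A2_g3T {N : Type} [DecidableEq N] (a b c : N) (hab : a ≠ b) (hac : a ≠ c) (n m : N) :
    g3 a b c n = some m ↔ g3 a c b m = some n := by
  unfold g3
  by_cases hna : n = a
  · subst hna
    by_cases hma : m = n
    · simp [hma]
    · by_cases hmc : m = c
      · subst hmc
        simp [hma, hab.symm, hac]
      · simp [hma, hmc, Ne.symm hma]
  · by_cases hma : m = a
    · subst hma
      by_cases hnb : n = b
      · subst hnb
        simp [hna, hac.symm, Ne.symm hna]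
      · simp [hna, hnb, Ne.symm hna]
    · by_cases hnb : n = b
      · subst hnb
        by_cases hmc : m = c
        · subst hmc
          simp [hna, hma]
        · simp [hna, hma, hmc, Ne.symm hmc]
      · by_cases hmc : m = c
        · subst hmc
          simp [hna, hma, hnb, Ne.symm hnb]
        · simp [hna, hma, hnb, hmc]

theorem A2 (hA1T : A1T_stmt) : A2_stmt := by
  intro E N _ _ _ _ inc x a b c hT hab hac hbc h1
  constructor
  · rintro ⟨hb, hc⟩
    exact A2_fwd inc x a b c hT hab hac h1 hb hc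
  · intro h
    have h' : NSn inc (g3 a c b) x :=
      (hA1T E N inc (g3 a b c) (g3 a c b) x (A2_g3T a b c hab hac)).1 h
    exact ⟨A2_bwd inc x a b c hT hab hac h1 h h', A2_bwd inc x a c b hT hac hab h1 h' h⟩

end CT
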